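import Pool.Agent.W889.VC.Coh2
import Pool.Agent.TH686.FS.Prime
import Pool.Agent.TH686.FS.Cls

set_option autoImplicit false

/-! Vaught's conjecture for partial orders without suborder N. -/

namespace Pool.Agent.X180.VC

open Set
open Pool.Agent.W889.VC
open Pool.Agent.Results.MP_5df2c5_lc
open Pool.Agent.TH686.FS

/-- partial orders without suborder `r` -/
def PFree {V : Type} (r : V → V → Prop) (y : BinStr) : Prop :=
  POB y ∧ ¬ ∃ f : V → ℕ, Function.Injective f ∧ ∀ u v, y (f u) (f v) = true ↔ r u v

theorem nf_of {y : BinStr} (hy : PFree NN y) : NF (fun u v => y u v = true) := by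
  obtain ⟨hp, hfree⟩ := hy
  have hir : ∀ u, ¬ y u u = true := hp.irrefl
  have htr : ∀ u v w, y u v = true → y v w = true → y u w = true := hp.trans
  intro a b c d h1 h2 h3 h4 h5 h6
  have n1 : a ≠ b := fun h => hir a (by rw [← h] at h1; exact h1)
  have n2 : b ≠ c := fun h => hir b (by rw [← h] at h2; exact h2)
  have n3 : c ≠ d := fun h => hir c (by rw [← h] at h3; exact h3)
  have n4 : a ≠ c := fun h => h6 (by rw [h]; exact Or.inl h3)
  have n5 : b ≠ d := fun h => h6 (by rw [← h]; exact Or.inl h1)
  have n6 : a ≠ d := fun h => h4 (by rw [h]; exact Or.inr h3)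
  have as : ∀ u v, y u v = true → ¬ y v u = true := fun u v h h' => hir u (htr _ _ _ h h')
  refine hfree ⟨![a, b, c, d], ?_, ?_⟩
  · intro i j hij
    fin_cases i <;> fin_cases j
    · rfl
    · exact absurd hij n1
    · exact absurd hij n4
    · exact absurd hij n6
    · exact absurd hij n1.symm
    · rfl
    · exact absurd hij n2
    · exact absurd hij n5
    · exact absurd hij n4.symm
    · exact absurd hij n2.symm
    · rfl
    · exact absurd hij n3
    · exact absurd hij n6.symm
    · exact absurd hij n5.symm
    · exact absurd hij n3.symm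
    · rfl
  · have q4 : ¬ y a c = true ∧ ¬ y c a = true := ⟨fun h => h4 (Or.inl h), fun h => h4 (Or.inr h)⟩
    have q5 : ¬ y b d = true ∧ ¬ y d b = true := ⟨fun h => h5 (Or.inl h), fun h => h5 (Or.inr h)⟩
    have q6 : ¬ y a d = true ∧ ¬ y d a = true := ⟨fun h => h6 (Or.inl h), fun h => h6 (Or.inr h)⟩
    intro i j
    fin_cases i <;> fin_cases j
    · exact iff_of_false (hir _) (by decide)
    · exact iff_of_true h1 (by decide)
    · exact iff_of_false q4.1 (by decide)
    · exact iff_of_false q6.1 (by decide)
    · exact iff_of_false (as _ _ h1) (by decide)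
    · exact iff_of_false (hir _) (by decide)
    · exact iff_of_false (as _ _ h2) (by decide)
    · exact iff_of_false q5.1 (by decide)
    · exact iff_of_false q4.2 (by decide)
    · exact iff_of_true h2 (by decide)
    · exact iff_of_false (hir _) (by decide)
    · exact iff_of_true h3 (by decide)
    · exact iff_of_false q6.2 (by decide)
    · exact iff_of_false q5.2 (by decide)
    · exact iff_of_false (as _ _ h3) (by decide)
    · exact iff_of_false (hir _) (by decide)

/-- partial orders without suborder N have no infinite prime quotients -/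
theorem nf_quot {y : BinStr} (hy : PFree NN y) :
    ModularDecomposition.PrimeQuotientsIn (fun _ => False) (up y) := by
  intro X e he hX hdis hU hprime
  have hp : PO (fun m n => y (e m) (e n) = true) :=
    ⟨fun u => hy.1.irrefl _, fun u v w => hy.1.trans _ _ _⟩
  have hq : NF (fun m n => y (e m) (e n) = true) := by
    intro a b c d
    exact nf_of hy (e a) (e b) (e c) (e d)
  obtain ⟨Z, hZ, ⟨u, u', hu, hu', huu⟩, w, hw⟩ := not_prime hp hq
  have hZ' : ∀ m m' n, Z m → Z m' → ¬ Z n →
      y (e m) (e n) = y (e m') (e n) ∧ y (e n) (e m) = y (e n) (e m') := by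
    intro m m' n h1 h2 h3
    obtain ⟨k1, k2⟩ := hZ m m' n h1 h2 h3
    exact ⟨Bool.eq_iff_iff.2 k1, Bool.eq_iff_iff.2 k2⟩
  rcases hprime {m | Z m} (by
    intro i t k l b hk hb hl
    have hkl : k ≠ l := fun h => hl (h ▸ hk)
    unfold ModularDecomposition.quotient
    have c1 : ∃ j l, t j ≠ t l := ⟨k, l, fun h => hl (by rw [← h]; exact hk)⟩
    have c2 : ∃ j l', Function.update t k b j ≠ Function.update t k b l' :=
      ⟨k, l, by
        rw [Function.update_self, Function.update_of_ne hkl.symm]
        exact fun h => hl (by rw [← h]; exact hb)⟩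
    rw [if_pos c1, if_pos c2]
    unfold up
    by_cases hi : i = 0
    · rw [if_pos hi, if_pos hi]
      simp only [Function.comp_apply]
      -- `k`, `l` are `0`, `1` in some order
      have f2 : ∀ k : Fin 2, k = 0 ∨ k = 1 := by decide
      have hk' := f2 k
      have hl' := f2 l
      rcases hk' with rfl | rfl <;> rcases hl' with rfl | rfl
      · exact absurd rfl hkl
      · rw [Function.update_self, Function.update_of_ne hkl.symm]
        exact (hZ' b (t 0) (t 1) hb hk hl).1
      · rw [Function.update_self, Function.update_of_ne hkl.symm]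
        exact (hZ' b (t 1) (t 0) hb hk hl).2
      · exact absurd rfl hkl
    · rw [if_neg hi, if_neg hi]) with h | h
  · exact huu (h hu hu')
  · exact hw (by
      have : w ∈ ({m | Z m} : Set ℕ) := by rw [h]; exact Set.mem_univ _
      exact this)

theorem vc_nf : VCof True BIso (PFree NN) := by
  refine down_bin True _ (ModularDecomposition.PrimeQuotientsIn (fun _ => False))
    (fun y hy => nf_quot hy) ?_
  have h := (ModularDecomposition.result (fun _ => 2) (fun _ => by norm_num) (fun _ => False)
    (by
      intro B _ _ hF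
      left
      exact ⟨fun _ => (fun _ _ => false, fun _ _ => false), fun x hx => (hF x hx).elim⟩)).2
  intro B h1 h2 h3
  rcases h B h1 h2 h3 with ⟨f, hf⟩ | ⟨g, hg, k1, k2⟩
  · exact Or.inl ⟨f, hf⟩
  · exact Or.inr ⟨g, fun _ => hg, k1, k2⟩

theorem pfree_of {V : Type} {r : V → V → Prop} (h : EmbN r) {y : BinStr} (hy : PFree r y) :
    PFree NN y := by
  obtain ⟨g, hg1, hg2⟩ := h
  refine ⟨hy.1, ?_⟩
  rintro ⟨f, hf1, hf2⟩
  exact hy.2 ⟨fun v => f (g v), fun u v huv => hg1 (hf1 huv),
    fun u v => (hf2 _ _).trans (hg2 u v).symm⟩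

theorem vc_pfree {V : Type} {r : V → V → Prop} (h : EmbN r) : VCof True BIso (PFree r) := by
  intro B h1 h2 h3
  exact vc_nf B h1 h2 fun x hx => pfree_of h (h3 x hx)

end Pool.Agent.X180.VC
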