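import Pool.Agent.TH686.FO.Main
import Pool.Agent.TH686.FS.Cob

set_option autoImplicit false

/-! First-order completeness of the class `Cob` of partial orders of height two. -/

namespace Pool.Agent.X180.VC

open FirstOrder FirstOrder.Language
open Pool.Agent.W889.FO Pool.Agent.W889.VC
open Pool.Agent.W889.SD (Nth Big Subd Pth)
open Pool.Agent.W889.FO.StA (FD.all1 FD.ex1)
open Pool.Agent.W889.FO.StE (LG gd siso_gd fd_gd)
open Pool.Agent.TH686.FO Pool.Agent.TH686.FS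

theorem fb_hi : FU (fun S => Hi (gd S)) := fun i =>
  FD.ex1 <| fb_gd x0 (Sum.inl i)

theorem fb_Dx : FB (fun S => Dx (gd S)) := fun i j =>
  ((fb_hi i).not.and ((fb_hi j).and (fb_gd i j).not)).or
    ((fb_hi i).and ((fb_hi j).not.and (fb_gd j i).not))

/-- the class -/
structure WCf (S : LG.Structure ℕ) : Prop where
  w : StD.W 0 (ofr (Dx (gd S)))
  hb : ∀ v, Hi (gd S) v ↔ Big (Dx (gd S)) v
  lo : ∀ u v, gd S u v → ¬ Hi (gd S) u

theorem ax_WCf : Ax WCf := by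
  have h1 : Ax (fun S : LG.Structure ℕ => ∀ v, Hi (gd S) v ↔ Big (Dx (gd S)) v) :=
    Ax.of <| FD.all1 <| (fb_hi x0).iff (fb_big fb_Dx x0)
  have h2 : Ax (fun S : LG.Structure ℕ => ∀ u v, gd S u v → ¬ Hi (gd S) u) :=
    Ax.of <| FD.all1 <| FD.all1 <| (fb_gd x1 x0).imp (fb_hi x1).not
  refine ((ax_comp (StD.ax_W 0) fb_Dx).and (h1.and h2)).congr fun S => ?_
  exact ⟨fun ⟨k1, k2, k3⟩ => ⟨k1, k2, k3⟩, fun ⟨k1, k2, k3⟩ => ⟨k1, k2, k3⟩⟩

theorem WCf.iff {S : LG.Structure ℕ} (h : WCf S) (u v : ℕ) :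
    gd S u v ↔ ¬ Big (Dx (gd S)) u ∧ Big (Dx (gd S)) v ∧ ¬ Dx (gd S) u v := by
  rw [← h.hb, ← h.hb]
  unfold Dx
  constructor
  · intro h1
    refine ⟨h.lo u v h1, ⟨u, h1⟩, ?_⟩
    rintro (h2 | h2)
    · exact h2.2.2 h1
    · exact h.lo u v h1 h2.1
  · rintro ⟨h1, h2, h3⟩
    by_contra h4
    exact h3 (Or.inl ⟨h1, h2, h4⟩)

theorem WCf.cob {S : LG.Structure ℕ} (h : WCf S) :
    PO (gd S) ∧ (∀ a b c, gd S a b → ¬ gd S b c) ∧ ¬ O6 (gd S) ∧ ¬ O8 (gd S) :=
  nonincidence (x := Dx (gd S)) h.w.sd h.iff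

/-- small vertices which are not adjacent to a given big vertex -/
theorem small {M : LG.Structure ℕ} (hM : StD.W 0 M) (v : ℕ) (hv : Big (gd M) v) :
    ∃ u, ¬ Big (gd M) u ∧ ¬ gd M u v := by
  obtain ⟨X, hX, hXb⟩ := hM.inf 2
  have hw : ∃ w, Big (gd M) w ∧ w ≠ v := by
    by_cases h : X 0 = v
    · refine ⟨X 1, hXb 1, fun h1 => ?_⟩
      have := hX (h.trans h1.symm)
      exact absurd this (by decide)
    · exact ⟨X 0, hXb 0, h⟩
  obtain ⟨w, hw, hne⟩ := hw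
  obtain ⟨a, b, c, hab, -, -, h1, h2, -⟩ := id hw
  have hs : ∀ u v, gd M u v → gd M v u := hM.sd.symm
  have ha : ¬ Big (gd M) a := fun h => hM.sd.indep w a hw h h1
  have hb : ¬ Big (gd M) b := fun h => hM.sd.indep w b hw h h2
  by_contra hcon
  push Not at hcon
  exact hab (sub_unique (T := ℕ) (x := gd M) hM.sd ha hb hw hv hne (hs _ _ h1) (hcon a ha)
    (hs _ _ h2) (hcon b hb))

/-- Vaught's conjecture reduces to theories of partial orders in the class `Cob`. -/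
theorem red_cob (hV : ∀ T' : LG.Theory, (∀ S : LG.Structure ℕ, @Theory.Model LG ℕ S T' →
    WCf S) → Vaught LG T') (T : LG.Theory) : Vaught LG T := by
  refine to_W 0 (fun T' hT' => ?_) T
  refine recode (W1 := WCf) (V0 := StD.W 0) ax_WCf fb_Dx ?_ ?_ hV T' hT'
  · intro S S' σ h h' hσ u v
    have hb := fun u => Pool.Agent.W889.SD.big_map (T := ℕ) (S := ℕ) σ
      (fun u v => (hσ u v).symm) u
    rw [h.iff, h'.iff, hσ, ← hb, ← hb]
  · intro M hM
    have hs : ∀ u v, gd M u v → gd M v u := hM.sd.symm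
    let S : LG.Structure ℕ := ofr fun u v => ¬ Big (gd M) u ∧ Big (gd M) v ∧ ¬ gd M u v
    have hS : ∀ u v, gd S u v ↔ ¬ Big (gd M) u ∧ Big (gd M) v ∧ ¬ gd M u v :=
      fun u v => Iff.rfl
    have hH : ∀ v, Hi (gd S) v ↔ Big (gd M) v := by
      intro v
      constructor
      · rintro ⟨u, hu⟩
        exact ((hS _ _).1 hu).2.1
      · intro hv
        obtain ⟨u, h1, h2⟩ := small hM v hv
        exact ⟨u, (hS _ _).2 ⟨h1, hv, h2⟩⟩
    have e : Dx (gd S) = gd M := by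
      funext u v
      refine propext ?_
      unfold Dx
      rw [hH, hH, hS, hS]
      constructor
      · rintro (⟨h1, h2, h3⟩ | ⟨h1, h2, h3⟩)
        · by_contra h4
          exact h3 ⟨h1, h2, h4⟩
        · by_contra h4
          exact h3 ⟨h2, h1, fun h5 => h4 (hs _ _ h5)⟩
      · intro h1
        by_cases hu : Big (gd M) u
        · have hv : ¬ Big (gd M) v := fun hv => hM.sd.indep u v hu hv h1
          exact Or.inr ⟨hu, hv, fun h2 => h2.2.2 (hs _ _ h1)⟩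
        · exact Or.inl ⟨hu, sub_cov (T := ℕ) (x := gd M) hM.sd hu h1, fun h2 => h2.2.2 h1⟩
    refine ⟨S, ⟨?_, fun v => ?_, fun u v huv => ?_⟩, fun u v => by rw [e]⟩
    · rw [e]
      exact ⟨hM.sd, hM.inf⟩
    · rw [e]
      exact hH v
    · rw [hH]
      exact ((hS _ _).1 huv).1

/-- the dual class -/
theorem red_cobd (hV : ∀ T' : LG.Theory, (∀ S : LG.Structure ℕ, @Theory.Model LG ℕ S T' →
    WCf (ofr fun u v => gd S v u)) → Vaught LG T') (T : LG.Theory) : Vaught LG T := by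
  have hb : FB (fun S u v => gd S v u) := fun i j => fd_gd j i
  refine red_cob (fun T' hT' => ?_) T
  refine recode (W1 := fun S => WCf (ofr fun u v => gd S v u)) (V0 := WCf)
    (ρ := fun S u v => gd S v u)
    (ax_comp (ρ := fun S u v => gd S v u) ax_WCf hb) hb ?_ ?_ hV T' hT'
  · intro S S' σ h h' hσ u v
    exact hσ v u
  · intro M hM
    exact ⟨ofr fun u v => gd M v u, ⟨hM.w, hM.hb, hM.lo⟩, fun u v => Iff.rfl⟩

end Pool.Agent.X180.VC
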