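import Pool.Agent.TH783.Pol.Str
import Pool.Agent.W889.FO.Cpl
import Pool.Agent.W889.FO.St0

set_option autoImplicit false

/-! From Borel classes closed under weak substructures to first-order theories. -/

namespace Pool.Agent.X180.VC.Pol

open FirstOrder FirstOrder.Language
open Pool.Agent.H533R2.VO (RS RIso Dich VC)
open Pool.Agent.W889.VC (BP)
open Pool.Agent.W889.FO

variable {L : FirstOrder.Language.{0, 0}}

/-- relation symbols with their arities -/
abbrev Sy (L : FirstOrder.Language.{0, 0}) : Type := Σ n, L.Relations n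

open Classical in
/-- the arity of the symbol with number `i` -/
noncomputable def ar (e : Sy L → ℕ) (i : ℕ) : ℕ := if h : ∃ q, e q = i then h.choose.1 else 0

theorem ar_e {e : Sy L → ℕ} (he : Function.Injective e) (q : Sy L) : ar e (e q) = q.1 := by
  unfold ar
  have h : ∃ q', e q' = e q := ⟨q, rfl⟩
  rw [dif_pos h, he h.choose_spec]

variable [L.IsRelational] {e : Sy L → ℕ}

/-- decoding, with complemented relations -/
@[reducible] noncomputable def dn (he : Function.Injective e) (p : ∀ n, L.Relations n → Bool)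
    (x : RS (ar e)) : L.Structure ℕ where
  funMap := fun {_} f => isEmptyElim f
  RelMap := fun {n} R t => (x (e ⟨n, R⟩) (fun i => t (Fin.cast (ar_e he ⟨n, R⟩) i)) ^^
    (decide (2 ≤ n) && p n R)) = true

open Classical in
/-- coding -/
noncomputable def up (e : Sy L → ℕ) (p : ∀ n, L.Relations n → Bool) (S : L.Structure ℕ) :
    RS (ar e) := fun i v =>
  decide (∃ (q : Sy L) (h : e q = i) (h' : ar e i = q.1),
    (decide (@Structure.RelMap L ℕ S q.1 q.2 (fun j => v (Fin.cast h'.symm j))) ^^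
      (decide (2 ≤ q.1) && p q.1 q.2)) = true)

open Classical in
theorem up_e (he : Function.Injective e) (p : ∀ n, L.Relations n → Bool) (S : L.Structure ℕ)
    (q : Sy L) (t : Fin q.1 → ℕ) :
    up e p S (e q) (fun i => t (Fin.cast (ar_e he q) i)) =
      (decide (@Structure.RelMap L ℕ S q.1 q.2 t) ^^ (decide (2 ≤ q.1) && p q.1 q.2)) := by
  rw [Bool.eq_iff_iff]
  unfold up
  rw [decide_eq_true_iff]
  constructor
  · rintro ⟨q', h, h', h1⟩
    obtain rfl := he h
    simpa using h1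
  · intro h
    exact ⟨q, rfl, ar_e he q, by simpa using h⟩

/-- only the codes of symbols are used -/
def Wf (e : Sy L → ℕ) (x : RS (ar e)) : Prop := ∀ i, (¬ ∃ q, e q = i) → ∀ v, x i v = false

theorem up_wf (e : Sy L → ℕ) (p : ∀ n, L.Relations n → Bool) (S : L.Structure ℕ) :
    Wf e (up e p S) := by
  classical
  intro i hi v
  unfold up
  rw [decide_eq_false_iff_not]
  rintro ⟨q, h, -⟩
  exact hi ⟨q, h⟩

theorem siso_up (he : Function.Injective e) (p : ∀ n, L.Relations n → Bool)
    (S : L.Structure ℕ) : SIso S (dn he p (up e p S)) := by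
  classical
  obtain ⟨f, -⟩ := siso_of (S := S) (S' := dn he p (up e p S)) (Equiv.refl ℕ) (fun n R v => by
    show (up e p S (e ⟨n, R⟩) (fun i => v (Fin.cast (ar_e he ⟨n, R⟩) i)) ^^
      (decide (2 ≤ n) && p n R)) = true ↔ _
    rw [up_e he p S ⟨n, R⟩ v]
    simp)
  exact ⟨f⟩

/-- a relation of the code -/
theorem dn_rel (he : Function.Injective e) (p : ∀ n, L.Relations n → Bool) (x : RS (ar e))
    (q : Sy L) (v : Fin (ar e (e q)) → ℕ) :
    @Structure.RelMap L ℕ (dn he p x) q.1 q.2 (fun i => v (Fin.cast (ar_e he q).symm i)) ↔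
      (x (e q) v ^^ (decide (2 ≤ q.1) && p q.1 q.2)) = true := by
  show (x (e q) (fun i => v (Fin.cast _ (Fin.cast _ i))) ^^ _) = true ↔ _
  rfl

theorem iso_of_riso (he : Function.Injective e) (p : ∀ n, L.Relations n → Bool)
    {x y : RS (ar e)} (h : RIso x y) : SIso (dn he p x) (dn he p y) := by
  obtain ⟨σ, hσ⟩ := h
  obtain ⟨f, -⟩ := siso_of (S := dn he p x) (S' := dn he p y) σ (fun n R v => by
    show (y (e ⟨n, R⟩) (fun i => σ (v (Fin.cast _ i))) ^^ _) = true ↔
      (x (e ⟨n, R⟩) (fun i => v (Fin.cast _ i)) ^^ _) = true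
    have h1 := hσ (e ⟨n, R⟩) (fun i => v (Fin.cast (ar_e he ⟨n, R⟩) i))
    rw [← h1]
    rfl)
  exact ⟨f⟩

theorem riso_of_iso (he : Function.Injective e) (p : ∀ n, L.Relations n → Bool)
    {x y : RS (ar e)} (hx : Wf e x) (hy : Wf e y) (h : SIso (dn he p x) (dn he p y)) :
    RIso x y := by
  obtain ⟨f⟩ := h
  let σ : Equiv.Perm ℕ := @FirstOrder.Language.Equiv.toEquiv L ℕ ℕ (dn he p x) (dn he p y) f
  refine ⟨σ, fun i v => ?_⟩
  by_cases hi : ∃ q, e q = i
  · obtain ⟨q, rfl⟩ := hi
    have h1 := iso_rel f q.2 (fun i => v (Fin.cast (ar_e he q).symm i))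
    have h2 := dn_rel he p x q v
    have h3 := dn_rel he p y q (⇑σ ∘ v)
    rw [Bool.eq_iff_iff]
    have h4 : (y (e q) (⇑σ ∘ v) ^^ (decide (2 ≤ q.1) && p q.1 q.2)) = true ↔
        (x (e q) v ^^ (decide (2 ≤ q.1) && p q.1 q.2)) = true := by
      rw [← h2, ← h3]
      exact h1
    revert h4
    generalize (decide (2 ≤ q.1) && p q.1 q.2) = b
    generalize y (e q) (⇑σ ∘ v) = c
    generalize x (e q) v = d
    revert b c d
    decide
  · rw [hx i hi, hy i hi]

/-- preservation -/
def Pres (p : ∀ n, L.Relations n → Bool) (T : L.Theory) : Prop :=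
  ∀ S S' : L.Structure ℕ, @Theory.Model L ℕ S T →
    (∀ (n : ℕ) (R : L.Relations n) (t : Fin n → ℕ), n < 2 →
      (@Structure.RelMap L ℕ S' n R t ↔ @Structure.RelMap L ℕ S n R t)) →
    (∀ (n : ℕ) (R : L.Relations n) (t : Fin n → ℕ), 2 ≤ n → p n R = true →
      @Structure.RelMap L ℕ S n R t → @Structure.RelMap L ℕ S' n R t) →
    (∀ (n : ℕ) (R : L.Relations n) (t : Fin n → ℕ), 2 ≤ n → p n R = false →
      @Structure.RelMap L ℕ S' n R t → @Structure.RelMap L ℕ S n R t) →
    @Theory.Model L ℕ S' T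

theorem main [Countable (Sy L)] (p : ∀ n, L.Relations n → Bool) (T : L.Theory)
    (hT : Pres p T) : Vaught L T := by
  obtain ⟨e, he⟩ := exists_injective_nat (Sy L)
  have hsc : Countable L.Sentence := countable_sentence
  let K : Set (RS (ar e)) := {x | Wf e x ∧ @Theory.Model L ℕ (dn he p x) T}
  have hat : ∀ (i : ℕ) (v : Fin (ar e i) → ℕ), BP (fun x : RS (ar e) => x i v = true) := by
    intro i v
    have hm : Measurable (fun x : RS (ar e) => x i v) :=
      (measurable_pi_apply v).comp (measurable_pi_apply i)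
    exact hm (measurableSet_singleton true)
  have hrel : ∀ (n : ℕ) (R : L.Relations n) (t : Fin n → ℕ),
      BP (fun x : RS (ar e) => @Structure.RelMap L ℕ (dn he p x) n R t) := by
    intro n R t
    cases hb : (decide (2 ≤ n) && p n R) with
    | false =>
      refine (hat (e ⟨n, R⟩) (fun i => t (Fin.cast (ar_e he ⟨n, R⟩) i))).congr fun x => ?_
      show _ ↔ (x (e ⟨n, R⟩) (fun i => t (Fin.cast (ar_e he ⟨n, R⟩) i)) ^^
        (decide (2 ≤ n) && p n R)) = true
      rw [hb]
      simp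
    | true =>
      refine (hat (e ⟨n, R⟩) (fun i => t (Fin.cast (ar_e he ⟨n, R⟩) i))).not.congr fun x => ?_
      show _ ↔ (x (e ⟨n, R⟩) (fun i => t (Fin.cast (ar_e he ⟨n, R⟩) i)) ^^
        (decide (2 ≤ n) && p n R)) = true
      rw [hb]
      simp
  have hK : MeasurableSet K := by
    have hT' : Countable T := Subtype.countable
    have h1 : BP (fun x : RS (ar e) => ∀ φ : T, @Sentence.Realize L ℕ (dn he p x) φ.1) :=
      BP.all fun φ => bp_sentence hrel φ.1
    have h2 : BP (fun x : RS (ar e) => Wf e x) := by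
      refine BP.all fun i => (BP.const _).imp (BP.all fun v => ?_)
      refine (hat i v).not.congr fun x => ?_
      simp
    refine (congrArg MeasurableSet (Set.ext fun y => ?_)).mp (h2.and h1)
    exact and_congr_right fun _ => ⟨fun h3 => ax_iff.2 fun φ hφ => h3 ⟨φ, hφ⟩,
      fun h3 φ => ax_iff.1 h3 φ.1 φ.2⟩
  have hinv : ∀ x y : RS (ar e), RIso x y → (x ∈ K ↔ y ∈ K) := by
    have key : ∀ x y : RS (ar e), RIso x y → x ∈ K → y ∈ K := by
      intro x y hxy hx
      refine ⟨fun i hi v => ?_, (iso_of_riso he p hxy).model hx.2⟩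
      obtain ⟨σ, hσ⟩ := hxy
      have h1 := hσ i (⇑σ.symm ∘ v)
      have h2 : ⇑σ ∘ (⇑σ.symm ∘ v) = v := by
        funext j
        simp
      rw [h2] at h1
      rw [h1]
      exact hx.1 i hi _
    intro x y hxy
    exact ⟨key x y hxy, key y x (by
      obtain ⟨σ, hσ⟩ := hxy
      refine ⟨σ.symm, fun i v => ?_⟩
      have h1 := hσ i (⇑σ.symm ∘ v)
      rw [← h1]
      congr 1
      funext j
      simp)⟩
  have hcl : ∀ x ∈ K, ∀ y : RS (ar e), (∀ i, ¬ 2 ≤ ar e i → y i = x i) →
      (∀ i t, y i t = true → x i t = true) → y ∈ K := by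
    intro x hx y h1 h2
    refine ⟨fun i hi v => ?_, hT _ _ hx.2 ?_ ?_ ?_⟩
    · rw [Bool.eq_false_iff]
      intro h3
      have h4 := h2 i v h3
      rw [hx.1 i hi v] at h4
      exact absurd h4 (by decide)
    · intro n R t hn
      show (y (e ⟨n, R⟩) _ ^^ _) = true ↔ (x (e ⟨n, R⟩) _ ^^ _) = true
      rw [h1 (e ⟨n, R⟩) (by rw [ar_e he]; exact not_le.2 hn)]
    · intro n R t hn hp h3
      show (y (e ⟨n, R⟩) (fun i => t (Fin.cast (ar_e he ⟨n, R⟩) i)) ^^
        (decide (2 ≤ n) && p n R)) = true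
      have h4 : (x (e ⟨n, R⟩) (fun i => t (Fin.cast (ar_e he ⟨n, R⟩) i)) ^^
        (decide (2 ≤ n) && p n R)) = true := h3
      have h5 := h2 (e ⟨n, R⟩) (fun i => t (Fin.cast (ar_e he ⟨n, R⟩) i))
      rw [hp, decide_eq_true hn] at h4 ⊢
      revert h4 h5
      generalize x (e ⟨n, R⟩) _ = b
      generalize y (e ⟨n, R⟩) _ = c
      revert b c
      decide
    · intro n R t hn hp h3
      show (x (e ⟨n, R⟩) (fun i => t (Fin.cast (ar_e he ⟨n, R⟩) i)) ^^
        (decide (2 ≤ n) && p n R)) = true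
      have h4 : (y (e ⟨n, R⟩) (fun i => t (Fin.cast (ar_e he ⟨n, R⟩) i)) ^^
        (decide (2 ≤ n) && p n R)) = true := h3
      have h5 := h2 (e ⟨n, R⟩) (fun i => t (Fin.cast (ar_e he ⟨n, R⟩) i))
      rw [hp, decide_eq_true hn] at h4 ⊢
      revert h4 h5
      generalize x (e ⟨n, R⟩) _ = b
      generalize y (e ⟨n, R⟩) _ = c
      revert b c
      decide
  rcases Pool.Agent.TH783.Pol.mono_main (ar e) K hK hinv hcl with ⟨f, hf⟩ | ⟨g, h1, h2, h3⟩
  · left
    refine ⟨fun n => dn he p (f n), fun S hS => ?_⟩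
    have hm : up e p S ∈ K := ⟨up_wf e p S, (siso_up he p S).model hS⟩
    obtain ⟨n, hn⟩ := hf _ hm
    exact ⟨n, (siso_up he p S).trans (iso_of_riso he p hn).symm⟩
  · right
    refine ⟨fun c => dn he p (g c), fun c => (h2 c).2, fun c d hcd =>
      h3 c d (riso_of_iso he p (h2 c).1 (h2 d).1 hcd), fun n R t => ?_⟩
    have h4 : Continuous fun c => (g c (e ⟨n, R⟩) (fun i => t (Fin.cast (ar_e he ⟨n, R⟩) i)) ^^
        (decide (2 ≤ n) && p n R)) := by
      have h5 : Continuous fun c => g c (e ⟨n, R⟩) (fun i => t (Fin.cast (ar_e he ⟨n, R⟩) i)) :=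
        (continuous_apply _).comp ((continuous_apply _).comp h1)
      exact (continuous_of_discreteTopology (f := fun b : Bool =>
        (b ^^ (decide (2 ≤ n) && p n R)))).comp h5
    exact (isClopen_discrete {true}).preimage h4

end Pool.Agent.X180.VC.Pol
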